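import Pool.Agent.Lib.MP_f907ca_an.Flow

/-!
# MP_f907ca_an, Q1: the asymptotic shapes at the two time ends differ

For every dimension `d ≥ 2`, every `A > 0` and every `γ > 1` there is a shock-free eternal flow in
vacuum with physical singularity for which no single bounded set `O` serves at both time ends.
The flow is an affine motion `x = F(t) x₀` with `F = diag(y₀, y₁, …)`,
`F'' = (det F)^(1-γ) F^(-T)`.
-/

open Pool.Agent.Lib.MP_f907ca_an

namespace Pool.Agent.Results.MP_f907ca_an.AffineCounterexample

theorem result (d : ℕ) (A γ : ℝ) (hd : 2 ≤ d) (hA : 0 < A) (hγ : 1 < γ) :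
    ∃ (F : Flow d) (ψ g : ℝ → Space d → ℝ),
      IsEternal A γ F ∧ IsDefining F ψ ∧ HasKinematicFront F ψ ∧
      HasPhysicalSingularity A γ F ψ g ∧
      (∃ O₁ O₂ : Set (Space d), Bornology.IsBounded O₁ ∧ Bornology.IsBounded O₂ ∧
        BehavesLike F O₁ Filter.atTop ∧ BehavesLike F O₂ Filter.atBot) ∧
      ¬ ∃ O : Set (Space d), Bornology.IsBounded O ∧
        BehavesLike F O Filter.atTop ∧ BehavesLike F O Filter.atBot :=
  main d A γ hd hA hγ

end Pool.Agent.Results.MP_f907ca_an.AffineCounterexample
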